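import Pool.Agent.X31.S14
import Pool.Agent.X31.M3

/-!
# Few translates of the primes, by integers near
# the values of bilinear functions at pairs of integers with missing digits

`C₁`, `C₂` are sets of integers with `mᵢ` digits in base `bᵢ` whose digit at `bᵢ ^ j` is in `𝒟ᵢ j`, where the sets
`𝒟ᵢ j` of allowed digits are arbitrary with at least TWO elements (for instance: the integers with the decimal digits
`0` and `1` only; the product of the two sets can be as thin as `N ^ ε`), `θ` is a real number and `g`, `h` are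
ARBITRARY real functions. The values considered are `θ x y + g(x) + h(y)`; for `θ = 1`, `g = h = 0` these are the
products of two integers with missing digits.
For each element `n` of an ARBITRARY dense subset `M` of `C₁ × C₂` let `s(n)` be an arbitrary integer within `log ^ D N` of the value at `n`.
For almost all vectors `(n_1, ..., n_r)` of elements of `M`, all the integers `a ≤ N`, with at most
`max ((3/4 + ε) ^ r, 1 / log ^ U N) N` exceptions, have a prime in one of the `r` intervals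
`(a + s(n_i), a + s(n_i) + log ^ K N]`. So `O(log (1 / δ))` values are enough for all but `δ N` of the `a`, and
`O(log log N)` values are enough for all but `N / log ^ U N` of them.
With `θ = 2`, `g(x) = x ^ 2`, `h(y) = y ^ 2` these are intervals to the right of `a + (x + y) ^ 2`, where `x` and `y` have
missing digits.

The minimal real additive energy of these values is from `Pool.Agent.X31.M1` - `M3` (in this run);
the greedy argument for families of small energy is from `Pool.Agent.X10.ST` (helper10, `MP_711652_nt.FewThinTranslates`);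
it rests on the starting theorem for one translate (`Pool.Agent.TH646.TT.cnt_full`).
-/

set_option autoImplicit false

namespace Pool.Agent.Results.MP_36c81c_nt.BilinearTranslates

open Finset

/-- the integers `0 ≤ n < b ^ m` whose digit at `b ^ j` in base `b` is in `𝒟 j`, for all `j < m` -/
def Digits (b : ℕ) (𝒟 : ℕ → Finset ℕ) (m : ℕ) : Finset ℕ :=
  (range (b ^ m)).filter (fun n => ∀ j < m, n / b ^ j % b ∈ 𝒟 j)

/-- the bilinear function `θ x y + g(x) + h(y)` -/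
def bil (θ : ℝ) (g h : ℕ → ℝ) (n : ℕ × ℕ) : ℝ := θ * ((n.1 : ℝ) * n.2) + g n.1 + h n.2

/-- `M` is a set of pairs in `Digits b₁ 𝒟₁ m₁ × Digits b₂ 𝒟₂ m₂` with at least `1 / log ^ D N` of all these pairs, where
all sets `𝒟ᵢ j` of allowed digits have at least two elements and `m₁ ≤ l m₂`, `m₂ ≤ l m₁`; the number `θ` is at most
`log ^ D N` and at least `N / (b₁ ^ m₁ b₂ ^ m₂ log ^ D N)` in absolute value; `g` and `h` are ARBITRARY functions with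
`|bil θ g h| ≤ N` on `M`. -/
def Fam (b₁ b₂ l D N m₁ m₂ : ℕ) (𝒟₁ 𝒟₂ : ℕ → Finset ℕ) (θ : ℝ) (g h : ℕ → ℝ) (M : Finset (ℕ × ℕ)) : Prop :=
  (∀ j, 𝒟₁ j ⊆ range b₁ ∧ 2 ≤ (𝒟₁ j).card) ∧ (∀ j, 𝒟₂ j ⊆ range b₂ ∧ 2 ≤ (𝒟₂ j).card) ∧
  m₁ ≤ l * m₂ ∧ m₂ ≤ l * m₁ ∧
  |θ| ≤ Real.log N ^ D ∧ (N : ℝ) / Real.log N ^ D ≤ |θ| * ((b₁ : ℝ) ^ m₁ * (b₂ : ℝ) ^ m₂) ∧
  M ⊆ Digits b₁ 𝒟₁ m₁ ×ˢ Digits b₂ 𝒟₂ m₂ ∧
  ((Digits b₁ 𝒟₁ m₁).card * (Digits b₂ 𝒟₂ m₂).card : ℝ) / Real.log N ^ D ≤ M.card ∧ ∀ n ∈ M, |bil θ g h n| ≤ N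

open Classical in
/-- the number of the `a` in `{1, ..., N}` such that none of the intervals `(a + t i, a + t i + y]` contains a prime -/
noncomputable def missed (N y : ℕ) {r : ℕ} (t : Fin r → ℕ) : ℕ :=
  ((Icc 1 N).filter (fun a : ℕ => ∀ i, ¬ ∃ q : ℕ, q.Prime ∧ a + t i < q ∧ q ≤ a + t i + y)).card

lemma dat_of {b₁ b₂ l D N m₁ m₂ : ℕ} {𝒟₁ 𝒟₂ : ℕ → Finset ℕ} {θ : ℝ} {g h : ℕ → ℝ} {M : Finset (ℕ × ℕ)}
    (H : Fam b₁ b₂ l D N m₁ m₂ 𝒟₁ 𝒟₂ θ g h M) : Pool.Agent.X31.CT.Dat2 b₁ b₂ l D N m₁ m₂ 𝒟₁ 𝒟₂ θ g h M :=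
  ⟨H.1, H.2.1, H.2.2.1, H.2.2.2.1, H.2.2.2.2.1, H.2.2.2.2.2.1, H.2.2.2.2.2.2.1, H.2.2.2.2.2.2.2.1,
    H.2.2.2.2.2.2.2.2⟩

/-- Let `b₁, b₂ ≥ 2` and `l ≥ 1` be integers. Let `D`, `U` be natural numbers and `0 < ε ≤ 1 / 4`. There are `K` and `N₀` such that for all
`N ≥ N₀`, all numbers `m₁`, `m₂` of digits, ALL sets `𝒟ᵢ j` of allowed
digits, all `θ`, ALL functions `g`, `h` and all sets `M` of pairs with `Fam b₁ b₂ l D N m₁ m₂ 𝒟₁ 𝒟₂ θ g h M`, and all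
numbers `s(n)` with `1 ≤ s(n) ≤ N` and `|s(n) - bil θ g h n| ≤ log ^ D N` (`n ∈ M`): for every `r`, all vectors
`(v 1, ..., v r)` of elements of `M`, with at most `r (#M) ^ r / log ^ U N` exceptions, are such that all but at most
`max ((3/4 + ε) ^ r, 1 / log ^ U N) N` of the `a ≤ N` have a prime in one of the intervals
`(a + s(v i), a + s(v i) + ⌈log ^ K N⌉]`. -/
theorem result (b₁ b₂ l : ℕ) (hb₁ : 2 ≤ b₁) (hb₂ : 2 ≤ b₂) (hl : 1 ≤ l) (D U : ℕ) (ε : ℝ) (hε : 0 < ε) (hε1 : ε ≤ 1 / 4) :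
    ∃ K N₀ : ℕ, ∀ N : ℕ, N₀ ≤ N →
      ∀ (m₁ m₂ : ℕ) (𝒟₁ 𝒟₂ : ℕ → Finset ℕ) (θ : ℝ) (g h : ℕ → ℝ) (M : Finset (ℕ × ℕ)),
      Fam b₁ b₂ l D N m₁ m₂ 𝒟₁ 𝒟₂ θ g h M →
      ∀ s : (ℕ × ℕ) → ℕ, (∀ n ∈ M, 1 ≤ s n ∧ s n ≤ N ∧ |(s n : ℝ) - bil θ g h n| ≤ Real.log N ^ D) → ∀ r : ℕ,
      ∃ E : Finset (Fin r → (ℕ × ℕ)), (E.card : ℝ) ≤ r * (M.card : ℝ) ^ r / Real.log N ^ U ∧
        ∀ v : Fin r → (ℕ × ℕ), (∀ i, v i ∈ M) → v ∉ E →
          (missed N ⌈Real.log N ^ K⌉₊ (fun i => s (v i)) : ℝ) ≤ N * max ((3 / 4 + ε) ^ r) (1 / Real.log N ^ U) := by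
  obtain ⟨K, N₀, h0⟩ := (Pool.Agent.X31.Sch_bil hb₁ hb₂ l hl).few D U ε hε hε1
  refine ⟨K, N₀, fun N hN m₁ m₂ 𝒟₁ 𝒟₂ θ g h M hfam s hs r => ?_⟩
  exact h0 N hN M (fun n => bil θ g h n) ⟨m₁, m₂, 𝒟₁, 𝒟₂, θ, g, h, dat_of hfam, fun _ => rfl⟩ s hs r

end Pool.Agent.Results.MP_36c81c_nt.BilinearTranslates
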