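import Pool.Agent.X220.FP.Cor
import Pool.Agent.X220.FP.Alg
import Pool.Agent.H998.LC.Pow.Base

/-!
# Almost primes with prescribed fractional parts between `n ^ 2` and `n ^ 2 + 1 + φ(n)`

Let `P_1, …, P_s` be real polynomials of degree at most `k ≥ 1` whose vector of the coefficients of `x ^ k` is of finite
type: the distance of `h_1 α_1 + … + h_s α_s` to the nearest integer is at least `c₀ / |h| ^ τ` for all nonzero integral
vectors `h` (for example `α_1, …, α_s` are algebraic and `1, α_1, …, α_s` are linearly independent over the rational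
numbers). For all large `n` we consider the numbers `m` in the interval `(n ^ 2, n ^ 2 + 1 + φ(n)]` for which all the
fractional parts of `P_i(m) - u_i` are less than `ρ_i`, where the `ρ_i` may be as small as `n ^ (-δ)`.
* The number of those of them with a bounded number of prime factors, all greater than `n ^ δ`, is at least
  `c ρ_1 … ρ_s (1 + φ(n)) / log n`.
* The number of primes among them is at most `C ρ_1 … ρ_s (1 + φ(n)) / log n`.
* The number of those without prime factors up to `y` is `ρ_1 … ρ_s (1 + φ(n)) ∏ (1 - 1 / q)` up to a small relative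
  error.

All this is uniform in the polynomials and in the boxes. The proof combines the fundamental lemma of the sieve, Mertens'
theorem (in the starting files), Weyl's inequality, and Liouville's inequality for norms.
-/

set_option autoImplicit false

namespace Pool.Agent.Results.MP_36c81c_nt.FractionalParts

open Finset Polynomial

/-- the vector `α` is of finite type, with the constants `c₀` and `τ` -/
def FiniteType {s : ℕ} (c₀ : ℝ) (τ : ℕ) (α : Fin s → ℝ) : Prop :=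
  ∀ h : Fin s → ℤ, h ≠ 0 → ∀ a : ℤ, c₀ ≤ (∑ i, |(h i : ℝ)|) ^ τ * |(∑ i, h i * α i) - a|

/-- all the fractional parts of `P_i(m) - u_i` are less than `ρ_i` -/
def InBox {s : ℕ} (P : Fin s → ℝ[X]) (u ρ : Fin s → ℝ) (m : ℕ) : Prop :=
  ∀ i, Int.fract ((P i).eval (m : ℝ) - u i) < ρ i

/-- `m ≠ 0` has at most `r` prime factors, counted with multiplicity, all of them greater than `x`. -/
def AlmostPrime (r : ℕ) (x : ℝ) (m : ℕ) : Prop :=
  m ≠ 0 ∧ m.primeFactorsList.length ≤ r ∧ ∀ q : ℕ, q.Prime → q ∣ m → x < q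

/-- the number of the `m` in `(n ^ 2, n ^ 2 + 1 + φ(n)]` with the properties `R` and `Q` -/
noncomputable def count (n : ℕ) (R Q : ℕ → Prop) : ℕ :=
  Set.ncard {m : ℕ | n ^ 2 < m ∧ m ≤ n ^ 2 + (1 + n.totient) ∧ R m ∧ Q m}

/-- the product of `1 - 1 / q` over the primes `q ≤ y` -/
noncomputable def V (y : ℕ) : ℝ := ∏ q ∈ (Icc 1 y).filter Nat.Prime, (1 - 1 / (q : ℝ))

/-- the polynomials -/
noncomputable def f : Fin 1 → ℤ[X] := ![C 1 * X + C 0]

/-- their values -/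
def G : Fin 1 → ℤ → ℤ := ![fun n => 1 * n + 0]

/-- the values at natural numbers -/
def F : Fin 1 → ℕ → ℕ := ![fun n => n]

lemma f_eval (i : Fin 1) (n : ℤ) : (f i).eval n = G i n := by
  fin_cases i <;> simp [f, G]

lemma f_deg (i : Fin 1) : (f i).natDegree = (![1] : Fin 1 → ℕ) i := by
  fin_cases i
  · show (C 1 * X + C 0 : ℤ[X]).natDegree = 1
    exact natDegree_linear (by norm_num)

lemma f_sys : Pool.Agent.X55.Fam.Sys 1 f := by
  refine Pool.Agent.X55.Fam.Sys.mk' ?_ ?_ ?_ 1 ?_ ?_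
  · intro i
    fin_cases i
    · show Irreducible (C 1 * X + C 0 : ℤ[X])
      exact Pool.Agent.X55.Fam.lin_irr _ _ (by norm_num) (fun d h1 h2 => isUnit_of_dvd_one (by have := dvd_add (h1.mul_left (1)) (h2.mul_left (-1)); norm_num at this; exact this))
  · intro i
    rw [f_deg]
    fin_cases i <;> norm_num
  · intro i j hij
    fin_cases i <;> fin_cases j <;>
      first
      | exact absurd rfl hij
      | exact Pool.Agent.X55.Fam.not_assoc 0 (by rw [f_eval, f_eval]; norm_num [G])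
  · simp [Fin.sum_univ_succ, f_deg]
  · intro p hp hp2
    interval_cases p
    · exact absurd hp (by norm_num)
    · exact absurd hp (by norm_num)

lemma hF (i : Fin 1) (n : ℕ) : ((f i).eval (n : ℤ)).natAbs = F i n := by
  rw [f_eval]
  fin_cases i
  · show (1 * (n : ℤ) + 0).natAbs = n
    rw [show (1 * (n : ℤ) + 0) = ((n : ℕ) : ℤ) by push_cast; ring, Int.natAbs_natCast]


lemma V_eq (y : ℕ) : ∏ q ∈ (Icc 1 y).filter Nat.Prime, (1 - (Set.ncard {a : ℕ | a < q ∧ q ∣ a} : ℝ) / q) = V y := by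
  unfold V
  refine prod_congr rfl fun q hq => ?_
  have hq' := (mem_filter.1 hq).2
  have : {a : ℕ | a < q ∧ q ∣ a} = {0} := by
    ext a
    constructor
    · rintro ⟨h1, h2⟩
      exact Nat.eq_zero_of_dvd_of_lt h2 h1
    · rintro rfl
      exact ⟨hq'.pos, dvd_zero _⟩
  rw [this, Set.ncard_singleton]
  simp

/-- the size of `H = 1 + φ(n)` -/
lemma size {n : ℕ} (hn : 32 ≤ n) : 4 ≤ 1 + n.totient ∧ n ≤ (1 + n.totient) ^ 3 ∧ 1 + n.totient ≤ n ∧
    n ^ 2 + (1 + n.totient) ≤ (1 + n.totient) ^ 6 := by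
  have h1 := Pool.Agent.H998.LC.Pow.le_two_mul_totient_sq (n := n) (by omega)
  have h2 : n.totient < n := Nat.totient_lt n (by omega)
  set t := n.totient with ht
  have h4 : 4 ≤ t := by
    by_contra h
    push Not at h
    have : t ^ 2 ≤ 3 ^ 2 := Nat.pow_le_pow_left (by omega) 2
    omega
  have h3 : n ≤ (1 + t) ^ 3 := by nlinarith
  refine ⟨by omega, h3, by omega, ?_⟩
  have h5 : n ^ 2 ≤ (2 * t ^ 2) ^ 2 := Nat.pow_le_pow_left h1 2
  have h6 : (2 * t ^ 2) ^ 2 = 4 * t ^ 4 := by ring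
  have h7 : 4 * t ^ 4 + (1 + t) ≤ (1 + t) ^ 6 := by
    have e1 : t ^ 4 ≤ (1 + t) ^ 4 := Nat.pow_le_pow_left (by omega) 4
    have e2 : (1 + t) ≤ (1 + t) ^ 4 := Nat.le_self_pow (by norm_num) _
    have e3 : (1 + t) ^ 6 = (1 + t) ^ 4 * (1 + t) ^ 2 := by ring
    have e4 : 5 ≤ (1 + t) ^ 2 := by nlinarith
    calc 4 * t ^ 4 + (1 + t) ≤ 4 * (1 + t) ^ 4 + (1 + t) ^ 4 := by omega
      _ = (1 + t) ^ 4 * 5 := by ring
      _ ≤ (1 + t) ^ 4 * (1 + t) ^ 2 := Nat.mul_le_mul_left _ e4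
      _ = _ := e3.symm
  omega

/-- powers of `n` against powers of `H` -/
lemma pow_small {n : ℕ} (hn : 32 ≤ n) {δ : ℝ} (hδ : 0 < δ) :
    (n : ℝ) ^ (δ / 3) ≤ ((1 + n.totient : ℕ) : ℝ) ^ δ := by
  obtain ⟨h1, h2, _⟩ := size hn
  have h3 : (n : ℝ) ≤ ((1 + n.totient : ℕ) : ℝ) ^ 3 := by exact_mod_cast h2
  calc (n : ℝ) ^ (δ / 3) ≤ (((1 + n.totient : ℕ) : ℝ) ^ 3) ^ (δ / 3) :=
        Real.rpow_le_rpow (by positivity) h3 (by positivity)
    _ = ((1 + n.totient : ℕ) : ℝ) ^ δ := by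
        rw [← Real.rpow_natCast, ← Real.rpow_mul (by positivity)]
        congr 1
        push_cast
        ring

lemma big (H₀ : ℕ) : ∀ n : ℕ, max 32 (H₀ ^ 3) ≤ n → 32 ≤ n ∧ H₀ ≤ 1 + n.totient := by
  intro n hn
  have h1 : 32 ≤ n := (le_max_left _ _).trans hn
  refine ⟨h1, ?_⟩
  obtain ⟨_, h2, _⟩ := size h1
  have h3 : H₀ ^ 3 ≤ (1 + n.totient) ^ 3 := ((le_max_right _ _).trans hn).trans h2
  exact (Nat.pow_le_pow_iff_left (by norm_num)).1 h3

theorem result : (∀ (s k τ : ℕ) (c₀ : ℝ), 1 ≤ k → 0 < c₀ →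
    (∃ (r : ℕ) (δ c C : ℝ) (n₀ : ℕ), 0 < δ ∧ 0 < c ∧ 0 < C ∧
      ∀ n : ℕ, n₀ ≤ n → ∀ P : Fin s → ℝ[X], (∀ i, (P i).natDegree ≤ k) → FiniteType c₀ τ (fun i => (P i).coeff k) →
      ∀ u ρ : Fin s → ℝ, (∀ i, (n : ℝ) ^ (-δ) ≤ ρ i ∧ ρ i ≤ 1) →
      c * ((1 + n.totient : ℕ) * ∏ i, ρ i) / Real.log n ≤ count n (InBox P u ρ) (AlmostPrime r ((n : ℝ) ^ δ)) ∧
        (count n (InBox P u ρ) Nat.Prime : ℝ) ≤ C * ((1 + n.totient : ℕ) * ∏ i, ρ i) / Real.log n) ∧
    (∀ η : ℝ, 0 < η → ∃ (δ : ℝ) (n₀ : ℕ), 0 < δ ∧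
      ∀ n : ℕ, n₀ ≤ n → ∀ P : Fin s → ℝ[X], (∀ i, (P i).natDegree ≤ k) → FiniteType c₀ τ (fun i => (P i).coeff k) →
      ∀ u ρ : Fin s → ℝ, (∀ i, (n : ℝ) ^ (-δ) ≤ ρ i ∧ ρ i ≤ 1) → ∀ y : ℕ, 3 ≤ y → (y : ℝ) ≤ (n : ℝ) ^ δ →
      |(count n (InBox P u ρ) (fun m => ∀ q : ℕ, q.Prime → q ≤ y → ¬ q ∣ m) : ℝ) -
        ((1 + n.totient : ℕ) * ∏ i, ρ i) * V y| ≤ η * (((1 + n.totient : ℕ) * ∏ i, ρ i) * V y))) ∧
    -- algebraic numbers
    (∀ (s : ℕ) (α : Fin s → ℝ), (∀ i, IsAlgebraic ℚ (α i)) →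
      (∀ (h : Fin s → ℤ) (a : ℤ), ∑ i, (h i : ℝ) * α i = a → h = 0) →
      ∃ (c₀ : ℝ) (τ : ℕ), 0 < c₀ ∧ FiniteType c₀ τ α) := by
  refine ⟨fun s k τ c₀ hk hc₀ => ⟨?_, ?_⟩, fun s α hα hind => Pool.Agent.X220.FP.liouville_vec s α hα hind⟩
  · obtain ⟨r, δ, c, C, H₀, hδ, hc, hC, h⟩ := Pool.Agent.X220.FP.fp_both s k τ hk c₀ hc₀ f_sys F hF 6
    refine ⟨r, δ / 3, c, 3 * C, max 32 (H₀ ^ 3), by positivity, hc, by positivity, fun n hn P hP hFT u ρ hρ => ?_⟩
    obtain ⟨hn32, hH₀⟩ := big H₀ n hn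
    obtain ⟨s1, s2, s3, s4⟩ := size hn32
    have hps := pow_small hn32 hδ
    have hnr : (32 : ℝ) ≤ n := by exact_mod_cast hn32
    have hHr : (4 : ℝ) ≤ ((1 + n.totient : ℕ) : ℝ) := by exact_mod_cast s1
    have hHn : ((1 + n.totient : ℕ) : ℝ) ≤ n := by exact_mod_cast s3
    have hρ' : ∀ i, ((1 + n.totient : ℕ) : ℝ) ^ (-δ) ≤ ρ i ∧ ρ i ≤ 1 := fun i => by
      refine ⟨le_trans ?_ (hρ i).1, (hρ i).2⟩
      rw [Real.rpow_neg (by positivity), Real.rpow_neg (by positivity)]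
      exact inv_anti₀ (by positivity) hps
    have hX : 0 ≤ ((1 + n.totient : ℕ) : ℝ) * ∏ i, ρ i := mul_nonneg (Nat.cast_nonneg _)
      (prod_nonneg fun i _ => le_trans (by positivity) (hρ i).1)
    have h3 := h (1 + n.totient) hH₀ P hP hFT u ρ hρ' (n ^ 2)
    unfold Pool.Agent.X55.Fam.Both at h3
    have h4 := h3.1 s4
    have h5 := h3.2
    simp only [F, Pool.Agent.X55.Fam.Good, Fin.forall_fin_one, Matrix.cons_val_fin_one, pow_one] at h4 h5
    have hlH : 0 < Real.log ((1 + n.totient : ℕ) : ℝ) := Real.log_pos (by linarith)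
    have hln : 0 < Real.log n := Real.log_pos (by linarith)
    have hl1 : Real.log ((1 + n.totient : ℕ) : ℝ) ≤ Real.log n := Real.log_le_log (by linarith) hHn
    have hl2 : Real.log n ≤ 3 * Real.log ((1 + n.totient : ℕ) : ℝ) := by
      have h6 : (n : ℝ) ≤ ((1 + n.totient : ℕ) : ℝ) ^ 3 := by exact_mod_cast s2
      have h7 := Real.log_le_log (by linarith) h6
      rwa [Real.log_pow] at h7
    constructor
    · refine le_trans ?_ (h4.trans ?_)
      · exact div_le_div_of_nonneg_left (by positivity) hlH hl1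
      · unfold count
        have hsub : {m : ℕ | n ^ 2 < m ∧ m ≤ n ^ 2 + (1 + n.totient) ∧ InBox P u ρ m ∧ m ≠ 0 ∧ m.primeFactorsList.length ≤ r ∧
            ∀ q : ℕ, q.Prime → q ∣ m → ((1 + n.totient : ℕ) : ℝ) ^ δ < q} ⊆
            {m : ℕ | n ^ 2 < m ∧ m ≤ n ^ 2 + (1 + n.totient) ∧ InBox P u ρ m ∧ AlmostPrime r ((n : ℝ) ^ (δ / 3)) m} := by
          rintro m ⟨a1, a2, a3, a4, a5, a6⟩
          exact ⟨a1, a2, a3, a4, a5, fun q hq hd => lt_of_le_of_lt hps (a6 q hq hd)⟩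
        exact_mod_cast Set.ncard_le_ncard hsub ((Set.finite_Iic (n ^ 2 + (1 + n.totient))).subset fun m hm => hm.2.1)
    · refine h5.trans ?_
      rw [div_le_div_iff₀ hlH hln]
      have h8 : 0 ≤ C * (((1 + n.totient : ℕ) : ℝ) * ∏ i, ρ i) := by positivity
      nlinarith
  · intro η hη
    obtain ⟨δ, H₀, hδ, h⟩ := Pool.Agent.X220.FP.fp_asym s k τ hk c₀ hc₀ f_sys F hF η hη
    refine ⟨δ / 3, max 32 (H₀ ^ 3), by positivity, fun n hn P hP hFT u ρ hρ y hy hyn => ?_⟩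
    obtain ⟨hn32, hH₀⟩ := big H₀ n hn
    have hps := pow_small hn32 hδ
    have hnr : (32 : ℝ) ≤ n := by exact_mod_cast hn32
    have hρ' : ∀ i, ((1 + n.totient : ℕ) : ℝ) ^ (-δ) ≤ ρ i ∧ ρ i ≤ 1 := fun i => by
      refine ⟨le_trans ?_ (hρ i).1, (hρ i).2⟩
      rw [Real.rpow_neg (by positivity), Real.rpow_neg (by positivity)]
      exact inv_anti₀ (by positivity) hps
    have h3 := h (1 + n.totient) hH₀ P hP hFT u ρ hρ' (n ^ 2) y hy (hyn.trans hps)
    unfold Pool.Agent.X55.Fam.Asym at h3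
    simp only [F, Fin.forall_fin_one, Fin.exists_fin_one, Matrix.cons_val_fin_one] at h3
    rw [V_eq] at h3
    exact h3

end Pool.Agent.Results.MP_36c81c_nt.FractionalParts
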