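import Pool.Agent.X119.Mil
import Pool.Agent.H426R3.SQ.Tot3

/-!
# All the numbers `N_n = ⌊θ ^ (c ^ n)⌋` of a sequence have a nearly minimal totient and squares in record gaps

The question is whether `a(n) ≤ 1 + φ(n)`, where `n ^ 2 + a(n)` is the least prime beyond `n ^ 2`. For every real `c > 1`
the `θ > 1` such that for all large `n` no prime is within `κ f(N_n)` of `N_n ^ 2`, `f` the record size of prime gaps,
and `φ(N_n) ≤ C N_n log₃ N_n / (log₂ N_n log₄ N_n)`, have Hausdorff dimension at least `s(κ)` in each open set that meets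
`(1, ∞)`, with `s(κ) → 1` as `κ → 0`; with `κ` depending on `θ` the dimension is `1`. So both sides of the inequality
are extreme along whole doubly exponential sequences.

The input for one number is the starting result `SmallTotientRecord`; the Cantor set argument is `Pool.Agent.X10.ML` (helper10).
-/

set_option autoImplicit false

open Filter

namespace Pool.Agent.Results.MP_36c81c_nt.MillsSequences

/-- The record scale `f(x) = log x (log₂ x)² log₄ x / (log₃ x)²` (iterated natural logarithms). -/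
noncomputable def f (x : ℝ) : ℝ :=
  Real.log x * (Real.log (Real.log x)) ^ 2 * Real.log (Real.log (Real.log (Real.log x))) /
    (Real.log (Real.log (Real.log x))) ^ 2

/-- `h(x) = log₃ x / (log₂ x log₄ x)`. -/
noncomputable def h (x : ℝ) : ℝ :=
  Real.log (Real.log (Real.log x)) / (Real.log (Real.log x) * Real.log (Real.log (Real.log (Real.log x))))

/-- No prime is at distance at most `κ f(m)` from `m ^ 2`, and `φ(m) ≤ C m h(m)`. -/
def Extreme (C κ : ℝ) (m : ℕ) : Prop :=
  (∀ q : ℕ, q.Prime → κ * f m < |(q : ℝ) - (m : ℝ) ^ 2|) ∧ (Nat.totient m : ℝ) ≤ C * m * h m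

/-- comparison of the totient bounds -/
lemma h_comp (a : ℝ) (ha : 0 < a) : ∃ L₀ : ℝ, ∀ L L' : ℝ, L₀ ≤ L → a * L ≤ L' → L' ≤ L →
    Real.log (Real.log L') / (Real.log L' * Real.log (Real.log (Real.log L'))) ≤
      4 * (Real.log (Real.log L) / (Real.log L * Real.log (Real.log (Real.log L)))) := by
  have h1 : ∀ᶠ L : ℝ in atTop, 2 * |Real.log a| ≤ Real.log L ∧ 4 ≤ Real.log (Real.log L) ∧
      4 ≤ Real.log (Real.log (Real.log L)) ∧ 1 ≤ L ∧ 4 ≤ Real.log L := by
    filter_upwards [Real.tendsto_log_atTop.eventually_ge_atTop (2 * |Real.log a|),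
      (Real.tendsto_log_atTop.comp Real.tendsto_log_atTop).eventually_ge_atTop 4,
      (Real.tendsto_log_atTop.comp (Real.tendsto_log_atTop.comp
        Real.tendsto_log_atTop)).eventually_ge_atTop 4, eventually_ge_atTop 1,
      Real.tendsto_log_atTop.eventually_ge_atTop 4] with L p1 p2 p3 p4 p5
    exact ⟨p1, p2, p3, p4, p5⟩
  obtain ⟨L₀, hL₀⟩ := eventually_atTop.1 h1
  refine ⟨L₀, fun L L' hL hL1 hL2 => ?_⟩
  obtain ⟨p1, p2, p3, p4, p5⟩ := hL₀ L hL
  have hL0 : 0 < L := by linarith
  have hL'0 : 0 < L' := lt_of_lt_of_le (by positivity) hL1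
  have q1 : Real.log L / 2 ≤ Real.log L' := by
    have e1 : Real.log (a * L) ≤ Real.log L' := Real.log_le_log (by positivity) hL1
    rw [Real.log_mul ha.ne' hL0.ne'] at e1
    have := neg_abs_le (Real.log a)
    linarith
  have q1' : Real.log L' ≤ Real.log L := Real.log_le_log hL'0 hL2
  have hl2 : Real.log 2 ≤ 1 := by linarith [Real.log_two_lt_d9]
  have q2 : Real.log (Real.log L) / 2 ≤ Real.log (Real.log L') := by
    have e1 : Real.log (Real.log L / 2) ≤ Real.log (Real.log L') := Real.log_le_log (by linarith) q1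
    rw [Real.log_div (by linarith) (by norm_num)] at e1
    linarith
  have q2' : Real.log (Real.log L') ≤ Real.log (Real.log L) := Real.log_le_log (by linarith) q1'
  have q3 : Real.log (Real.log (Real.log L)) / 2 ≤ Real.log (Real.log (Real.log L')) := by
    have e1 : Real.log (Real.log (Real.log L) / 2) ≤ Real.log (Real.log (Real.log L')) :=
      Real.log_le_log (by linarith) q2
    rw [Real.log_div (by linarith) (by norm_num)] at e1
    linarith
  have d0 : 0 < Real.log L * Real.log (Real.log (Real.log L)) := by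
    have : 0 < Real.log L := by linarith
    have : 0 < Real.log (Real.log (Real.log L)) := by linarith
    positivity
  have d1 : Real.log L * Real.log (Real.log (Real.log L)) / 4 ≤
      Real.log L' * Real.log (Real.log (Real.log L')) := by
    calc Real.log L * Real.log (Real.log (Real.log L)) / 4
        = (Real.log L / 2) * (Real.log (Real.log (Real.log L)) / 2) := by ring
      _ ≤ _ := by
        have g1 : 0 ≤ Real.log (Real.log (Real.log L)) / 2 := by linarith
        have g2 : 0 ≤ Real.log L' := by linarith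
        gcongr
  have d2 : 0 < Real.log L' * Real.log (Real.log (Real.log L')) := by linarith
  have d3 : 0 < Real.log (Real.log L) := by linarith
  calc Real.log (Real.log L') / (Real.log L' * Real.log (Real.log (Real.log L')))
      ≤ Real.log (Real.log L) / (Real.log L' * Real.log (Real.log (Real.log L'))) :=
        div_le_div_of_nonneg_right q2' d2.le
    _ ≤ Real.log (Real.log L) / (Real.log L * Real.log (Real.log (Real.log L)) / 4) :=
        div_le_div_of_nonneg_left d3.le (by positivity) d1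
    _ = 4 * (Real.log (Real.log L) / (Real.log L * Real.log (Real.log (Real.log L)))) := by
        field_simp

/-- Extreme totients and record gaps at all the numbers of a sequence. -/
theorem result : ∃ C : ℝ, 0 < C ∧ ∀ c : ℝ, 1 < c →
    (∀ s : ℝ, s < 1 → ∃ κ : ℝ, 0 < κ ∧ ∀ U : Set ℝ, IsOpen U → (U ∩ Set.Ioi 1).Nonempty →
      ENNReal.ofReal s ≤ dimH {θ : ℝ | θ ∈ U ∧ 1 < θ ∧ ∃ N : ℕ, ∀ n : ℕ, N ≤ n →
        Extreme C κ ⌊θ ^ (c ^ n)⌋₊}) ∧
    ∀ U : Set ℝ, IsOpen U → (U ∩ Set.Ioi 1).Nonempty →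
      dimH {θ : ℝ | θ ∈ U ∧ 1 < θ ∧ ∃ κ : ℝ, 0 < κ ∧ ∃ N : ℕ, ∀ n : ℕ, N ≤ n →
        Extreme C κ ⌊θ ^ (c ^ n)⌋₊} = 1 := by
  obtain ⟨c₀, hc₀, C₀, hC₀, Y₀, hh⟩ := Pool.Agent.H426R3.SQ.totient_main
  refine ⟨4 * C₀, by positivity, fun c hc => ?_⟩
  apply Pool.Agent.X119.Mil.mills_const c hc (Extreme (4 * C₀))
  intro a ha ha1
  obtain ⟨X₁, hX₁4, hX₁⟩ := Pool.Agent.X119.Mil.scale a ha ha1
  obtain ⟨X₂, hX₂⟩ := eventually_atTop.1 ((tendsto_rpow_atTop ha).eventually_ge_atTop Y₀)
  obtain ⟨L₀, hL₀⟩ := h_comp (a / 2) (by linarith)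
  obtain ⟨X₃, hX₃⟩ := eventually_atTop.1 (Real.tendsto_log_atTop.eventually_ge_atTop L₀)
  refine ⟨c₀ * (a / 2 / 8), by positivity, max (max X₁ X₂) X₃, fun X hX z hz1 hz2 => ?_⟩
  have hX1 : X₁ ≤ X := ((le_max_left _ _).trans (le_max_left _ _)).trans hX
  have hX4 : 4 ≤ X := hX₁4.trans hX1
  have hY : Y₀ ≤ X ^ a := hX₂ X (((le_max_right _ _).trans (le_max_left _ _)).trans hX)
  have hYX : X ^ a ≤ X := (hX₁ X hX1 X le_rfl (by linarith)).1
  obtain ⟨m, hm1, hm2, hm3, hm4⟩ := hh (X ^ a) hY z (hYX.trans hz1)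
  have hm1r : (z : ℝ) < m := by exact_mod_cast hm1
  obtain ⟨-, g2, g3, g4, -⟩ := hX₁ X hX1 m (by linarith) (by linarith)
  have key : c₀ * (a / 2 / 8) * f m ≤ c₀ * Pool.Agent.X119.Mil.rec (X ^ a) := by
    rw [mul_assoc]
    exact mul_le_mul_of_nonneg_left g4 hc₀.le
  have hL : L₀ ≤ Real.log m :=
    (hX₃ X ((le_max_right _ _).trans hX)).trans (Real.log_le_log (by linarith) (by linarith))
  have k2 := hL₀ (Real.log m) (Real.log (X ^ a)) hL g2 g3
  refine ⟨m, ⟨fun q hq => lt_of_le_of_lt key (hm4 q hq), ?_⟩, hm1, hm2⟩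
  have hm0 : (0 : ℝ) ≤ m := Nat.cast_nonneg _
  calc (Nat.totient m : ℝ) ≤ C₀ * m * Real.log (Real.log (Real.log (X ^ a))) /
        (Real.log (Real.log (X ^ a)) * Real.log (Real.log (Real.log (Real.log (X ^ a))))) := hm3
    _ = C₀ * m * (Real.log (Real.log (Real.log (X ^ a))) /
        (Real.log (Real.log (X ^ a)) * Real.log (Real.log (Real.log (Real.log (X ^ a)))))) := by ring
    _ ≤ C₀ * m * (4 * h m) := mul_le_mul_of_nonneg_left k2 (by positivity)
    _ = 4 * C₀ * m * h m := by ring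

end Pool.Agent.Results.MP_36c81c_nt.MillsSequences
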