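import Pool.Agent.X67.QS.Fam2

set_option autoImplicit false

namespace Pool.Agent.Results.MP_36c81c_nt.ProductsOfResidues

open Finset Polynomial
open Pool.Agent.X67.QS

/-- **Record distances between consecutive squares and the primes, at products of residues from
arbitrary sets.** Let `k` and `ε > 0`. There are `c > 0` and `p₀` such that for all primes `p ≥ p₀`,
all `J ≥ 1` and `Z ≥ log p` with `J Z ≤ c log p (log₂ p)² log₄ p / (log₃ p)²`, all polynomials `F` of
degree between `1` and `k` over the field with `p` elements and all sets `A`, `B` of residues modulo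
`p` with `|A| |B| ≥ p ^ (1 + ε)` there are `a` in `A` and `b` in `B` such that, for the least residue
`n ≥ 0` of `F(a b)` and each of the `J` consecutive integers `m = n, n + 1, …, n + J - 1`, no prime
is within distance `Z` of the square `m²`; in particular the least prime beyond `m²` is beyond
`m² + Z`. -/
theorem result (k : ℕ) (ε : ℝ) (hε : 0 < ε) : ∃ c : ℝ, 0 < c ∧ ∃ p₀ : ℕ,
    ∀ (p : ℕ) [Fact p.Prime], p₀ ≤ p → ∀ J Z : ℕ, 1 ≤ J → Real.log p ≤ Z →
    (J : ℝ) * Z ≤ c * (Real.log p * (Real.log (Real.log p)) ^ 2 *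
      Real.log (Real.log (Real.log (Real.log p))) / (Real.log (Real.log (Real.log p))) ^ 2) →
    ∀ F : (ZMod p)[X], 1 ≤ F.natDegree → F.natDegree ≤ k →
    ∀ A B : Finset (ZMod p), (p : ℝ) ^ (1 + ε) ≤ A.card * B.card →
    ∃ a ∈ A, ∃ b ∈ B, ∃ n : ℕ, n = (F.eval (a * b)).val ∧
      ∀ m : ℕ, n ≤ m → m < n + J → ∀ q : ℕ, q.Prime → (Z : ℝ) < |(q : ℝ) - (m : ℝ) ^ 2| := by
  obtain ⟨κ, hκ, p₀, h⟩ := prod_qs k ε hε
  refine ⟨κ, hκ, p₀, ?_⟩
  intro p _ hp J Z hJ hZ hJZ F hF1 hF A B hAB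
  obtain ⟨a, ha, b, hb, hab⟩ := h p hp A B F hF1 hF hAB J Z hJ hZ hJZ
  refine ⟨a, ha, b, hb, _, rfl, fun m hm1 hm2 q hq => ?_⟩
  have h1 := (hab (m - (F.eval (a * b)).val) (by omega) q hq).1
  rw [Nat.cast_sub hm1] at h1
  have e : ((F.eval (a * b)).val : ℝ) + ((m : ℝ) - ((F.eval (a * b)).val : ℝ)) = m := by ring
  rwa [e] at h1

end Pool.Agent.Results.MP_36c81c_nt.ProductsOfResidues
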